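import Pool.Agent.helper60.DA.SpecW

/-!
# Row dw:FW2 (MP_fb2c2a_nt)
-/

set_option autoImplicit false

namespace Pool.Agent.helper60.DA

open Polynomial Finset Pool.Agent.helper60.DK

theorem FW2_four_pow (p : ℕ) [Fact p.Prime] (h5 : 5 ≤ p) : (4 : ZMod p) ^ hh p = 1 := by
  have h2 := two_hh (p := p) h5
  have e : (4 : ZMod p) ^ hh p = (2 : ZMod p) ^ (p - 1) := by
    have : p - 1 = 2 * hh p := by omega
    rw [this, pow_mul]
    norm_num
  rw [e]
  exact ZMod.pow_card_sub_one_eq_one (two_ne h5)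

theorem FW2_P_deg (p : ℕ) [Fact p.Prime] (h5 : 5 ≤ p) : (Pp p).natDegree ≤ 4 * hh p := by
  unfold Pp
  have h1 : ((1 + 4 * X : (ZMod p)[X]) ^ hh p).natDegree ≤ hh p * 1 := by
    apply natDegree_pow_le_of_le
    compute_degree
  have h2 := natDegree_Wp (p := p) h5
  refine (natDegree_mul_le).trans ?_
  omega

theorem FW2_P_top (p : ℕ) [Fact p.Prime] (h5 : 5 ≤ p) (hWL : WL_stmt) :
    (Pp p).coeff (4 * hh p) = 1 := by
  unfold Pp
  have h0 : (1 + 4 * X : (ZMod p)[X]).natDegree ≤ 1 := by compute_degree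
  have h1 : ((1 + 4 * X : (ZMod p)[X]) ^ hh p).natDegree ≤ hh p * 1 := natDegree_pow_le_of_le _ h0
  have h2 := natDegree_Wp (p := p) h5
  have e : 4 * hh p = hh p * 1 + 3 * hh p := by ring
  rw [e, coeff_mul_add_eq_of_natDegree_le h1 h2, coeff_pow_of_natDegree_le h0, (hWL p h5).1, mul_one]
  have h3 : (1 + 4 * X : (ZMod p)[X]).coeff 1 = 4 := by
    have : (4 : (ZMod p)[X]) = C 4 := (map_ofNat C 4).symm
    rw [this, coeff_add, coeff_C_mul_X, coeff_one]
    norm_num
  rw [h3, FW2_four_pow p h5]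

theorem FW2_main (p : ℕ) [Fact p.Prime] (h7 : 7 ≤ p) (hWL : WL_stmt) (v g : (ZMod p)[X])
    (hv : v.natDegree ≤ 4 * hh p) (hg : Tw p v = expand (ZMod p) p g * Pp p)
    (G : (ZMod p)[X]) (hG : Wp p = (1 + X) ^ hh p * G) (hG0 : G.eval (-1) ≠ 0)
    (hv1 : v.eval (-1) = -1) :
    Tw p v = -C (3 / 2) * (1 + 2 * X ^ p) ^ 2 * Pp p := by
  have h5 : 5 ≤ p := by omega
  have hp2 := two_hh (p := p) h5
  have hp0 : 0 < p := by omega
  have hPd := FW2_P_deg p h5
  have hPt := FW2_P_top p h5 hWL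
  have h2 : (2 : ZMod p) ≠ 0 := two_ne h5
  obtain ⟨c, hc⟩ : ∃ c : ZMod p, c = 3 / 2 := ⟨_, rfl⟩
  have hc2 : 2 * c = 3 := by rw [hc]; field_simp
  have h6 : (6 : ZMod p) ≠ 0 := by
    have : ((6 : ℕ) : ZMod p) ≠ 0 := cast_ne_zero_of_lt (by norm_num) (by omega)
    exact_mod_cast this
  obtain ⟨h, hh1⟩ : ∃ h : ℕ, hh p = h + 1 := ⟨hh p - 1, by omega⟩
  set P := Pp p with hP
  have hP0 : P ≠ 0 := by
    intro h0
    rw [h0] at hPt
    simp at hPt
  have hPn : P.natDegree = 4 * hh p := natDegree_eq_of_le_of_coeff_ne_zero hPd (by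
    rw [hPt]; exact one_ne_zero)
  have hTdef : Tw p v = X * (1 + X) * (1 + 4 * X) * (derivative v * P - v * derivative P)
      - C c * (1 + 2 * X) ^ 2 * P ^ 2 := by
    rw [hc]; rfl
  -- degree and top coefficient
  obtain ⟨D, hD⟩ : ∃ D : (ZMod p)[X], D = derivative v * P - v * derivative P := ⟨_, rfl⟩
  have hdv : (derivative v).natDegree ≤ 4 * h + 3 := by
    have := natDegree_derivative_le v
    omega
  have hdP : (derivative P).natDegree ≤ 4 * h + 3 := by
    have := natDegree_derivative_le P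
    omega
  have hv' : v.natDegree ≤ 4 * h + 4 := by omega
  have hP' : P.natDegree ≤ 4 * h + 4 := by omega
  have hDdeg : D.natDegree ≤ 8 * h + 7 := by
    rw [hD]
    refine (natDegree_sub_le _ _).trans (max_le ?_ ?_)
    · refine natDegree_mul_le.trans ?_
      omega
    · refine natDegree_mul_le.trans ?_
      omega
  have hPt' : P.coeff (4 * h + 4) = 1 := by
    rw [← hPt]; congr 1; omega
  have hDtop : D.coeff (8 * h + 7) = 0 := by
    have e1 : 8 * h + 7 = (4 * h + 3) + (4 * h + 4) := by ring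
    have e2 : 8 * h + 7 = (4 * h + 4) + (4 * h + 3) := by ring
    have a1 : (derivative v * P).coeff (8 * h + 7) = v.coeff (4 * h + 4) * ((4 * h + 3 : ℕ) + 1) * 1 := by
      rw [e1, coeff_mul_add_eq_of_natDegree_le hdv hP', coeff_derivative, hPt']
    have a2 : (v * derivative P).coeff (8 * h + 7) = v.coeff (4 * h + 4) * (1 * ((4 * h + 3 : ℕ) + 1)) := by
      rw [e2, coeff_mul_add_eq_of_natDegree_le hv' hdP, coeff_derivative, hPt']
    rw [hD, coeff_sub, a1, a2]
    ring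
  obtain ⟨q3, hq3⟩ : ∃ q3 : (ZMod p)[X], q3 = X * (1 + X) * (1 + 4 * X) := ⟨_, rfl⟩
  have hq3d : q3.natDegree ≤ 3 := by
    rw [hq3]
    compute_degree
  obtain ⟨q2, hq2⟩ : ∃ q2 : (ZMod p)[X], q2 = C c * (1 + 2 * X) ^ 2 := ⟨_, rfl⟩
  have hq2e : q2 = C (4 * c) * X ^ 2 + C (4 * c) * X + C c := by
    rw [hq2]
    have e4 : (C (4 * c) : (ZMod p)[X]) = 4 * C c := by
      rw [map_mul]
      exact congrArg (· * C c) (map_ofNat C 4)
    rw [e4]
    ring
  have hq2d : q2.natDegree ≤ 2 := by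
    rw [hq2e]
    compute_degree
  have hq2t : q2.coeff 2 = 6 := by
    rw [hq2e, coeff_add, coeff_add, coeff_C_mul_X_pow, coeff_C_mul_X, coeff_C]
    norm_num
    linear_combination 2 * hc2
  have hT' : Tw p v = q3 * D - q2 * P ^ 2 := by
    rw [hTdef, hq3, hD, hq2]
  have hP2d : (P ^ 2).natDegree ≤ 2 * (4 * h + 4) := natDegree_pow_le_of_le _ hP'
  have hTdeg : (Tw p v).natDegree ≤ 8 * h + 10 := by
    rw [hT']
    refine (natDegree_sub_le _ _).trans (max_le ?_ ?_)
    · refine natDegree_mul_le.trans ?_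
      omega
    · refine natDegree_mul_le.trans ?_
      omega
  have hTtop : (Tw p v).coeff (8 * h + 10) = -6 := by
    have e1 : 8 * h + 10 = 3 + (8 * h + 7) := by ring
    have e2 : 8 * h + 10 = 2 + 2 * (4 * h + 4) := by ring
    have a1 : (q3 * D).coeff (8 * h + 10) = 0 := by
      rw [e1, coeff_mul_add_eq_of_natDegree_le hq3d hDdeg, hDtop, mul_zero]
    have a2 : (q2 * P ^ 2).coeff (8 * h + 10) = 6 := by
      rw [e2, coeff_mul_add_eq_of_natDegree_le hq2d hP2d, coeff_pow_of_natDegree_le hP', hPt', hq2t]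
      ring
    rw [hT', coeff_sub, a1, a2]
    ring
  have hTn : (Tw p v).natDegree = 8 * h + 10 := natDegree_eq_of_le_of_coeff_ne_zero hTdeg (by
    rw [hTtop]; exact neg_ne_zero.2 h6)
  have hT0 : Tw p v ≠ 0 := by
    intro h0
    rw [h0] at hTtop
    simp only [coeff_zero] at hTtop
    exact neg_ne_zero.2 h6 hTtop.symm
  have hE0 : expand (ZMod p) p g ≠ 0 := by
    intro h0
    rw [hg, h0, zero_mul] at hT0
    exact hT0 rfl
  have hgn : g.natDegree = 2 := by
    have e1 := congrArg natDegree hg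
    rw [hTn, natDegree_mul hE0 hP0, natDegree_expand, hPn] at e1
    have e2 : g.natDegree * p = 2 * p := by omega
    exact Nat.eq_of_mul_eq_mul_right hp0 e2
  have hg2 : g.coeff 2 = -6 := by
    have e1 : 8 * h + 10 = 2 * p + (4 * h + 4) := by omega
    have hEd : (expand (ZMod p) p g).natDegree ≤ 2 * p := by
      rw [natDegree_expand, hgn]
    rw [hg, e1, coeff_mul_add_eq_of_natDegree_le hEd hP', coeff_expand_mul hp0, hPt', mul_one] at hTtop
    exact hTtop
  -- value at 0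
  have hP00 : P.eval 0 = 1 := by
    rw [hP]
    unfold Pp
    rw [eval_mul, ← coeff_zero_eq_eval_zero (Wp p), Wp_coeff_zero]
    simp
  have hg0 : g.coeff 0 = -c := by
    have e1 := congrArg (eval 0) hg
    rw [eval_mul, expand_eval, zero_pow hp0.ne', hP00, mul_one, ← coeff_zero_eq_eval_zero g, hTdef] at e1
    simp [hP00] at e1
    exact e1.symm
  -- value at -1
  obtain ⟨Q, hQ⟩ : ∃ Q : (ZMod p)[X], Q = (1 + 4 * X) ^ hh p * G := ⟨_, rfl⟩
  have hPQ : P = (1 + X) ^ hh p * Q := by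
    rw [hP, hQ]
    unfold Pp
    rw [hG]
    ring
  have hdPQ : (1 + X) * derivative P = (1 + X) ^ hh p * (C ((hh p : ℕ) : ZMod p) * Q + (1 + X) * derivative Q) := by
    rw [hPQ, derivative_mul, derivative_pow, hh1]
    simp only [derivative_add, derivative_one, derivative_X, Nat.add_sub_cancel]
    ring
  obtain ⟨R, hR⟩ : ∃ R : (ZMod p)[X], R = X * (1 + 4 * X) * ((1 + X) * derivative v * Q -
      v * (C ((hh p : ℕ) : ZMod p) * Q + (1 + X) * derivative Q)) -
      C c * (1 + 2 * X) ^ 2 * (1 + X) ^ hh p * Q ^ 2 := ⟨_, rfl⟩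
  have hTR : Tw p v = (1 + X) ^ hh p * R := by
    have e1 : Tw p v = X * (1 + 4 * X) * ((1 + X) * derivative v * P - v * ((1 + X) * derivative P))
        - C c * (1 + 2 * X) ^ 2 * P ^ 2 := by
      rw [hTdef]; ring
    rw [e1, hdPQ, hPQ, hR]
    ring
  have hX1 : (1 + X : (ZMod p)[X]) ^ hh p ≠ 0 := by
    apply pow_ne_zero
    intro h0
    have := congrArg (eval 0) h0
    simp at this
  have hER : expand (ZMod p) p g * Q = R := by
    apply mul_left_cancel₀ hX1
    rw [← hTR, hg, hPQ]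
    ring
  have hQ1 : Q.eval (-1) ≠ 0 := by
    rw [hQ, eval_mul]
    apply mul_ne_zero _ hG0
    rw [eval_pow]
    apply pow_ne_zero
    have e : (1 + 4 * X : (ZMod p)[X]).eval (-1) = -((3 : ℕ) : ZMod p) := by
      simp
      ring
    rw [e]
    exact neg_ne_zero.2 (cast_ne_zero_of_lt (by norm_num) (by omega))
  have hodd : Odd p := ⟨hh p, by omega⟩
  have hg1v : g.eval (-1) = 3 * ((hh p : ℕ) : ZMod p) := by
    have e1 := congrArg (eval (-1)) hER
    rw [eval_mul, expand_eval, hodd.neg_one_pow, hR] at e1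
    apply mul_right_cancel₀ hQ1
    rw [e1]
    have hz : (0 : ZMod p) ^ hh p = 0 := zero_pow (by omega)
    simp [hv1, hz]
    ring
  have hhm : 2 * ((hh p : ℕ) : ZMod p) = -1 := by
    have : ((2 * hh p + 1 : ℕ) : ZMod p) = ((p : ℕ) : ZMod p) := by rw [hp2]
    rw [ZMod.natCast_self] at this
    push_cast at this
    linear_combination this
  have hgform : g = C (g.coeff 0) + C (g.coeff 1) * X + C (g.coeff 2) * X ^ 2 := by
    have := g.as_sum_range_C_mul_X_pow
    rw [hgn] at this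
    conv_lhs => rw [this]
    rw [sum_range_succ, sum_range_succ, sum_range_succ, sum_range_zero]
    ring
  have hg1 : g.coeff 1 = -6 := by
    rw [hgform] at hg1v
    simp only [eval_add, eval_mul, eval_C, eval_X, eval_pow] at hg1v
    rw [hg0, hg2] at hg1v
    have h3 : (2 : ZMod p) * g.coeff 1 = 2 * (-6) := by
      linear_combination (-2) * hg1v - 3 * hhm - hc2
    exact mul_left_cancel₀ h2 h3
  have hexp : expand (ZMod p) p g = -C c * (1 + 2 * X ^ p) ^ 2 := by
    rw [hgform, hg0, hg1, hg2]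
    simp only [map_add, map_mul, map_pow, expand_C, expand_X, map_neg]
    have e6 : (C (6 : ZMod p) : (ZMod p)[X]) = 4 * C c := by
      have : (6 : ZMod p) = 4 * c := by linear_combination (-2) * hc2
      rw [this, map_mul]
      exact congrArg (· * C c) (map_ofNat C 4)
    rw [e6]
    ring
  rw [hg, hexp, hc]

theorem FW2 (hVTX : VTX_stmt) (hFW1 : FW1_stmt) (hCST : CST_stmt) (hNPF : NPF_stmt) (hWL : WL_stmt)
    (hGX : GX_stmt) (hVM : VM_stmt) : FW2_stmt := by
  intro p _ h7 hp3 V2 hV2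
  have h5 : 5 ≤ p := by omega
  have hp2 := two_hh (p := p) h5
  have hPt := FW2_P_top p h5 hWL
  have hPd := FW2_P_deg p h5
  have hP0 : Pp p ≠ 0 := by
    intro h0
    rw [h0] at hPt
    simp at hPt
  obtain ⟨g, hg⟩ := hCST p (Tw p (red p V2)) (Pp p) hP0 (by omega) (hNPF p h7 hp3) (hFW1 p h7 V2 hV2)
  obtain ⟨G, hG, hG0⟩ := hGX p h5 hp3
  have hv : (red p V2).natDegree ≤ 4 * hh p := by
    refine le_trans ?_ ((hVTX p h5).2 V2 hV2)
    unfold red
    exact natDegree_map_le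
  exact FW2_main p h7 hWL (red p V2) g hv hg G hG hG0 (hVM p h7 hp3 V2 hV2)

end Pool.Agent.helper60.DA
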